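import Mathlib

/-!
# TWR-DEG (helper308, for the project TWR of helper459)

Primes inert in `ℚ(√d)` have residue degree one in extensions `M / ℚ(√d)` of dihedral type.
-/

set_option autoImplicit false

open NumberField IsDedekindDomain

namespace Pool.Agent.H308.TWR

/-- The finite field part. -/
theorem field_part (k : Type) [Field k] [Finite k] (q : ℕ) (hq : q.Prime) [CharP k q]
    (hq2 : q % 2 = 1) (t : k) (ht0 : t ≠ 0) (htq : t ^ q = -t) (hk : ∀ x : k, (x ^ q) ^ q = x)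
    (x : k) : ∃ a b : ℕ, x = (a : k) + (b : k) * t := by
  classical
  have hfq : Fact q.Prime := ⟨hq⟩
  have := Fintype.ofFinite k
  let ι : ZMod q →+* k := ZMod.castHom (dvd_refl q) k
  have hι : ∀ c, (ι c) ^ q = ι c := by
    intro c
    rw [← map_pow, ZMod.pow_card]
  have h2 : -t ≠ t := by
    intro h
    have h2t : (2 : k) * t = 0 := by linear_combination -h
    rcases mul_eq_zero.mp h2t with h2 | h2
    · have h3 : ((2 : ℕ) : k) = 0 := by exact_mod_cast h2
      rw [CharP.cast_eq_zero_iff k q 2] at h3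
      have h4 : q ≤ 2 := Nat.le_of_dvd (by norm_num) h3
      have h5 := hq.two_le
      omega
    · exact ht0 h2
  have hne : ∀ c, ι c ≠ t := by
    intro c hc
    have h3 := hι c
    rw [hc, htq] at h3
    exact h2 h3
  let f : ZMod q × ZMod q → k := fun p => ι p.1 + ι p.2 * t
  have hf : Function.Injective f := by
    rintro ⟨a, b⟩ ⟨a', b'⟩ h
    simp only [f] at h
    have hb : b = b' := by
      by_contra hb
      have hb' : b - b' ≠ 0 := sub_ne_zero.mpr hb
      have hb'' : ι (b - b') ≠ 0 := (map_ne_zero ι).mpr hb'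
      apply hne ((a' - a) / (b - b'))
      rw [map_div₀, div_eq_iff hb'', map_sub, map_sub]
      linear_combination -h
    subst hb
    have h3 : ι a = ι a' := by simpa using h
    have h4 : a = a' := ι.injective h3
    rw [h4]
  have hcard : Nat.card k ≤ Nat.card (ZMod q × ZMod q) := by
    rw [Nat.card_prod, Nat.card_zmod, Nat.card_eq_fintype_card]
    have hq1 : 1 < q * q := by
      have := hq.two_le
      nlinarith
    have hp0 : (Polynomial.X ^ (q * q) - Polynomial.X : Polynomial k) ≠ 0 :=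
      FiniteField.X_pow_card_sub_X_ne_zero k hq1
    have hsub : (Finset.univ : Finset k) ⊆
        (Polynomial.X ^ (q * q) - Polynomial.X : Polynomial k).roots.toFinset := by
      intro z _
      rw [Multiset.mem_toFinset, Polynomial.mem_roots hp0]
      simp only [Polynomial.IsRoot.def, Polynomial.eval_sub, Polynomial.eval_pow,
        Polynomial.eval_X]
      rw [pow_mul, hk z, sub_self]
    calc Fintype.card k = (Finset.univ : Finset k).card := Finset.card_univ.symm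
      _ ≤ _ := Finset.card_le_card hsub
      _ ≤ _ := Multiset.toFinset_card_le _
      _ ≤ _ := Polynomial.card_roots' _
      _ = q * q := FiniteField.X_pow_card_sub_X_natDegree_eq k hq1
  have hs : Function.Surjective f := (hf.bijective_of_nat_card_le hcard).2
  obtain ⟨⟨a, b⟩, hab⟩ := hs x
  refine ⟨a.val, b.val, ?_⟩
  rw [← hab]
  have hva : ∀ c : ZMod q, ι c = ((c.val : ℕ) : k) := by
    intro c
    have h3 : ((c.val : ℕ) : ZMod q) = c := ZMod.natCast_zmod_val c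
    rw [← map_natCast ι, h3]
  simp only [f, hva]

theorem card_under (M : Type) [Field M] [NumberField M] (q : ℕ) (hq : q.Prime)
    (P : Ideal (𝓞 M)) [P.IsPrime] (hqP : (q : 𝓞 M) ∈ P) : Nat.card (ℤ ⧸ P.under ℤ) = q := by
  have h1 : P.under ℤ = Ideal.span {(q : ℤ)} := by
    have hmax : (Ideal.span {(q : ℤ)}).IsMaximal := by
      have hqi : Prime (q : ℤ) := Nat.prime_iff_prime_int.mp hq
      exact PrincipalIdealRing.isMaximal_of_irreducible hqi.irreducible
    symm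
    apply hmax.eq_of_le
    · exact Ideal.IsPrime.ne_top'
    · rw [Ideal.span_le, Set.singleton_subset_iff]
      change (algebraMap ℤ (𝓞 M)) (q : ℤ) ∈ P
      simpa using hqP
  rw [h1]
  rw [Nat.card_congr (Int.quotientSpanNatEquivZMod q).toEquiv, Nat.card_zmod]

/-- **DEG.** Primes `q` that are inert in `ℚ(√d) = K` have residue degree one in the extensions `M / K` of
dihedral type. -/
theorem deg (K M : Type) [Field K] [NumberField K] [Field M] [NumberField M] [Algebra K M]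
    [IsGalois ℚ M]
    (hdi : ∀ σ : M ≃ₐ[ℚ] M, (∃ x : K, σ (algebraMap K M x) ≠ algebraMap K M x) → ∀ x, σ (σ x) = x)
    (d : ℤ) (y : 𝓞 K) (hy : y ^ 2 = (d : 𝓞 K)) (q : ℕ) (hq : q.Prime) (hq2 : q % 2 = 1)
    (hqd : (q : ℤ) ∣ d ^ ((q - 1) / 2) + 1)
    (P : HeightOneSpectrum (𝓞 M)) (hqP : (q : 𝓞 M) ∈ P.asIdeal) (x : 𝓞 M) :
    ∃ z : 𝓞 K, x - algebraMap (𝓞 K) (𝓞 M) z ∈ P.asIdeal := by
  classical
  have hPp : P.asIdeal.IsPrime := P.isPrime
  have hPm : P.asIdeal.IsMaximal := P.isMaximal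
  let _ : Field (𝓞 M ⧸ P.asIdeal) := Ideal.Quotient.field P.asIdeal
  have hfin : Finite (𝓞 M ⧸ P.asIdeal) := Ideal.finiteQuotientOfFreeOfNeBot P.asIdeal P.ne_bot
  have hinv : Algebra.IsInvariant ℤ (𝓞 M) (𝓞 M ≃ₐ[ℤ] 𝓞 M) :=
    Algebra.isInvariant_of_isGalois' ℤ ℚ M (𝓞 M)
  have hfinG : Finite (𝓞 M ≃ₐ[ℤ] 𝓞 M) :=
    Finite.of_equiv _ (galRestrict ℤ ℚ M (𝓞 M)).toEquiv
  obtain ⟨g, hg⟩ := IsArithFrobAt.exists_of_isInvariant ℤ (𝓞 M ≃ₐ[ℤ] 𝓞 M) P.asIdeal
  have hcard := card_under M q hq P.asIdeal hqP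
  have hgmk : ∀ z : 𝓞 M, Ideal.Quotient.mk P.asIdeal (g z) =
      (Ideal.Quotient.mk P.asIdeal z) ^ q := by
    intro z
    have h1 := hg.mk_apply z
    rw [hcard] at h1
    exact h1
  have hq0 : ((q : ℕ) : 𝓞 M ⧸ P.asIdeal) = 0 := by
    have h1 : Ideal.Quotient.mk P.asIdeal (q : 𝓞 M) = 0 := Ideal.Quotient.eq_zero_iff_mem.mpr hqP
    simpa using h1
  have hchar : CharP (𝓞 M ⧸ P.asIdeal) q := (CharP.charP_iff_prime_eq_zero hq).mpr hq0
  -- the image of `y`
  obtain ⟨t, ht⟩ : ∃ t, t = Ideal.Quotient.mk P.asIdeal (algebraMap (𝓞 K) (𝓞 M) y) := ⟨_, rfl⟩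
  have ht2 : t ^ 2 = ((d : ℤ) : 𝓞 M ⧸ P.asIdeal) := by
    rw [ht, ← map_pow, ← map_pow, hy, map_intCast, map_intCast]
  have hdq : ((d : ℤ) : 𝓞 M ⧸ P.asIdeal) ^ ((q - 1) / 2) = -1 := by
    obtain ⟨c, hc⟩ := hqd
    have h1 : (((d ^ ((q - 1) / 2) + 1 : ℤ)) : 𝓞 M ⧸ P.asIdeal) = 0 := by
      rw [hc, Int.cast_mul, Int.cast_natCast, hq0, zero_mul]
    push_cast at h1
    linear_combination h1
  have hq3 : 3 ≤ q := by
    have := hq.two_le
    omega
  have htq : t ^ q = -t := by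
    have h1 : q = 2 * ((q - 1) / 2) + 1 := by omega
    calc t ^ q = t ^ (2 * ((q - 1) / 2) + 1) := by rw [← h1]
      _ = (t ^ 2) ^ ((q - 1) / 2) * t := by rw [pow_succ, pow_mul]
      _ = -t := by rw [ht2, hdq]; ring
  have ht0 : t ≠ 0 := by
    intro h0
    rw [h0] at ht2
    have h1 : ((d : ℤ) : 𝓞 M ⧸ P.asIdeal) = 0 := by rw [← ht2]; ring
    rw [h1, zero_pow (by omega)] at hdq
    have h2 : (1 : 𝓞 M ⧸ P.asIdeal) = 0 := by linear_combination hdq
    exact one_ne_zero h2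
  have htne : -t ≠ t := by
    intro h
    have h2t : (2 : 𝓞 M ⧸ P.asIdeal) * t = 0 := by linear_combination -h
    rcases mul_eq_zero.mp h2t with h2 | h2
    · have h3 : ((2 : ℕ) : 𝓞 M ⧸ P.asIdeal) = 0 := by exact_mod_cast h2
      rw [CharP.cast_eq_zero_iff (𝓞 M ⧸ P.asIdeal) q 2] at h3
      have h4 : q ≤ 2 := Nat.le_of_dvd (by norm_num) h3
      omega
    · exact ht0 h2
  -- the automorphism of `M`
  obtain ⟨σ, hσ⟩ : ∃ σ : M ≃ₐ[ℚ] M, ∀ z : 𝓞 M, σ (algebraMap (𝓞 M) M z) =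
      algebraMap (𝓞 M) M (g z) := by
    refine ⟨(galRestrict ℤ ℚ M (𝓞 M)).symm g, fun z => ?_⟩
    exact galRestrict_symm_algebraMap_apply (A := ℤ) (K := ℚ) (L := M) (B := 𝓞 M) g z
  have hinj : Function.Injective (algebraMap (𝓞 M) M) := RingOfIntegers.coe_injective
  have hnt : ∃ x : K, σ (algebraMap K M x) ≠ algebraMap K M x := by
    refine ⟨algebraMap (𝓞 K) K y, fun h => ?_⟩
    have h1 : algebraMap K M (algebraMap (𝓞 K) K y) =
        algebraMap (𝓞 M) M (algebraMap (𝓞 K) (𝓞 M) y) := by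
      rw [← IsScalarTower.algebraMap_apply, ← IsScalarTower.algebraMap_apply]
    rw [h1, hσ] at h
    have h2 := hinj h
    have h3 := hgmk (algebraMap (𝓞 K) (𝓞 M) y)
    rw [h2, ← ht, htq] at h3
    exact htne h3.symm
  have hgg : ∀ z : 𝓞 M, g (g z) = z := by
    intro z
    apply hinj
    rw [← hσ, ← hσ]
    exact hdi σ hnt _
  have hk : ∀ u : 𝓞 M ⧸ P.asIdeal, (u ^ q) ^ q = u := by
    intro u
    obtain ⟨z, rfl⟩ := Ideal.Quotient.mk_surjective u
    rw [← hgmk, ← hgmk, hgg]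
  obtain ⟨a, b, hab⟩ := field_part (𝓞 M ⧸ P.asIdeal) q hq hq2 t ht0 htq hk
    (Ideal.Quotient.mk P.asIdeal x)
  refine ⟨(a : 𝓞 K) + (b : 𝓞 K) * y, ?_⟩
  rw [← Ideal.Quotient.eq_zero_iff_mem, map_sub, hab, map_add, map_mul, map_natCast, map_natCast,
    map_add, map_mul, map_natCast, map_natCast, ← ht, sub_self]

end Pool.Agent.H308.TWR
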